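import Mathlib

set_option autoImplicit false

namespace Pool.Agent.Results.MP_55034c_pr.DominanceFails

open Finset

/-- `P` is the transition matrix of a reversible, irreducible and aperiodic Markov chain on the
finite set `V`, and `μ` is its stationary distribution (the `π` of the problem). -/
structure IsReversibleChain {V : Type} [Fintype V] [DecidableEq V]
    (P : Matrix V V ℝ) (μ : V → ℝ) : Prop where
  nonneg : ∀ x y, 0 ≤ P x y
  row_sum : ∀ x, ∑ y, P x y = 1
  stat_nonneg : ∀ x, 0 ≤ μ x
  stat_sum : ∑ x, μ x = 1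
  stationary : ∀ y, ∑ x, μ x * P x y = μ y
  reversible : ∀ x y, μ x * P x y = μ y * P y x
  irreducible : ∀ x y, ∃ n : ℕ, 0 < (P ^ n) x y
  aperiodic : ∀ x, ∀ d : ℕ, (∀ n : ℕ, 0 < (P ^ n) x x → d ∣ n) → d = 1

/-- The probability that the chain with initial law `μ` and transition matrix `P` has
`X 0 = x 0, X 1 = x 1, …, X s = x s`. -/
noncomputable def trajProb {V : Type} (P : Matrix V V ℝ) (μ : V → ℝ) {s : ℕ}
    (x : Fin (s + 1) → V) : ℝ :=
  μ (x 0) * ∏ r : Fin s, P (x r.castSucc) (x r.succ)

open Classical in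
/-- The probability that `|R(s)| ≥ y` for a single chain started from the law `μ`, where
`R(s) = {X 0, …, X s}`. -/
noncomputable def singleTail {V : Type} [Fintype V] (P : Matrix V V ℝ) (μ : V → ℝ)
    (s : ℕ) (y : ℝ) : ℝ :=
  ∑ x : Fin (s + 1) → V, if y ≤ ((Set.range x).ncard : ℝ) then trajProb P μ x else 0

open Classical in
/-- The probability that `|R_1(t_1) ∪ … ∪ R_k(t_k)| ≥ y` for `k` independent chains, each started
from the law `μ`. -/
noncomputable def unionTail {V : Type} [Fintype V] (P : Matrix V V ℝ) (μ : V → ℝ)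
    {k : ℕ} (t : Fin k → ℕ) (y : ℝ) : ℝ :=
  ∑ x : (i : Fin k) → (Fin (t i + 1) → V),
    if y ≤ ((⋃ i, Set.range (x i)).ncard : ℝ) then ∏ i, trajProb P μ (x i) else 0

/-! ### General facts -/

lemma sum_trajProb {V : Type} [Fintype V] (P : Matrix V V ℝ) (μ : V → ℝ)
    (hrow : ∀ x, ∑ y, P x y = 1) (hμ : ∑ x, μ x = 1) (s : ℕ) :
    ∑ x : Fin (s + 1) → V, trajProb P μ x = 1 := by
  induction s with
  | zero =>
    rw [← hμ]
    refine Fintype.sum_equiv (Equiv.funUnique (Fin 1) V) _ _ ?_
    intro x
    simp [trajProb, Equiv.funUnique]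
  | succ s ih =>
    rw [← ih]
    rw [← (Fin.snocEquiv (fun _ : Fin (s + 2) => V)).sum_comp]
    rw [Fintype.sum_prod_type_right]
    refine Finset.sum_congr rfl ?_
    intro x _
    have h : ∀ v : V, trajProb P μ ((Fin.snocEquiv (fun _ : Fin (s + 2) => V)) (v, x))
        = trajProb P μ x * P (x (Fin.last s)) v := by
      intro v
      simp only [trajProb, Fin.snocEquiv, Equiv.coe_fn_mk]
      rw [Fin.prod_univ_castSucc]
      have h0 : (Fin.snoc x v : Fin (s + 2) → V) 0 = x 0 := by
        have : (0 : Fin (s + 2)) = Fin.castSucc (0 : Fin (s + 1)) := rfl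
        rw [this, Fin.snoc_castSucc]
      have h1 : ∀ r : Fin s, (Fin.snoc x v : Fin (s + 2) → V) r.castSucc.castSucc = x r.castSucc := by
        intro r
        rw [Fin.snoc_castSucc]
      have h2 : ∀ r : Fin s, (Fin.snoc x v : Fin (s + 2) → V) r.castSucc.succ = x r.succ := by
        intro r
        rw [Fin.succ_castSucc, Fin.snoc_castSucc]
      have h3 : (Fin.snoc x v : Fin (s + 2) → V) (Fin.last s).castSucc = x (Fin.last s) := by
        rw [Fin.snoc_castSucc]
      have h4 : (Fin.snoc x v : Fin (s + 2) → V) (Fin.last s).succ = v := by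
        rw [Fin.succ_last, Fin.snoc_last]
      simp only [h0, h1, h2, h3, h4]
      ring
    simp only [h]
    rw [← Finset.mul_sum, hrow, mul_one]

lemma trajProb_nonneg {V : Type} (P : Matrix V V ℝ) (μ : V → ℝ)
    (hP : ∀ x y, 0 ≤ P x y) (hμ : ∀ x, 0 ≤ μ x) {s : ℕ} (x : Fin (s + 1) → V) :
    0 ≤ trajProb P μ x :=
  mul_nonneg (hμ _) (Finset.prod_nonneg fun _ _ => hP _ _)

/-! ### The chain: complete graph with loops, one very heavy loop -/

/-- edge weights: `1` between distinct vertices; loops `w - T` at `0` and `T` elsewhere -/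
noncomputable def cond (T : ℕ) (w : ℝ) (i j : Fin (T + 1)) : ℝ :=
  if i = j then (if i = 0 then w - T else T) else 1

noncomputable def deg (T : ℕ) (w : ℝ) (i : Fin (T + 1)) : ℝ := if i = 0 then w else 2 * T

noncomputable def PP (T : ℕ) (w : ℝ) : Matrix (Fin (T + 1)) (Fin (T + 1)) ℝ :=
  fun i j => cond T w i j / deg T w i

noncomputable def tot (T : ℕ) (w : ℝ) : ℝ := w + 2 * T * T

noncomputable def st (T : ℕ) (w : ℝ) : Fin (T + 1) → ℝ := fun i => deg T w i / tot T w

lemma cond_symm (T : ℕ) (w : ℝ) (i j : Fin (T + 1)) : cond T w i j = cond T w j i := by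
  unfold cond
  by_cases h : i = j
  · subst h; rfl
  · simp [h, Ne.symm h]

lemma sum_cond (T : ℕ) (w : ℝ) (i : Fin (T + 1)) : ∑ j, cond T w i j = deg T w i := by
  unfold cond deg
  rw [← Finset.add_sum_erase _ _ (Finset.mem_univ i)]
  have : ∀ j ∈ (univ.erase i : Finset (Fin (T + 1))),
      (if i = j then (if i = 0 then w - (T : ℝ) else T) else 1) = 1 := by
    intro j hj
    have : i ≠ j := (Finset.ne_of_mem_erase hj).symm
    simp [this]
  rw [Finset.sum_congr rfl this]
  simp only [if_true, Finset.sum_const, Finset.card_erase_of_mem (Finset.mem_univ i),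
    Finset.card_univ, Fintype.card_fin, Nat.add_sub_cancel, nsmul_eq_mul, mul_one]
  split_ifs <;> ring

lemma sum_deg (T : ℕ) (w : ℝ) : ∑ i, deg T w i = tot T w := by
  unfold deg tot
  rw [← Finset.add_sum_erase _ _ (Finset.mem_univ (0 : Fin (T + 1)))]
  have : ∀ j ∈ (univ.erase 0 : Finset (Fin (T + 1))),
      (if j = 0 then w else 2 * (T : ℝ)) = 2 * T := by
    intro j hj
    have : j ≠ 0 := (Finset.ne_of_mem_erase hj)
    simp [this]
  rw [Finset.sum_congr rfl this]
  simp only [if_true, Finset.sum_const, Finset.card_erase_of_mem (Finset.mem_univ _),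
    Finset.card_univ, Fintype.card_fin, Nat.add_sub_cancel, nsmul_eq_mul]
  ring

section chain

variable {T : ℕ} {w : ℝ} (hT : 1 ≤ T) (hw : 2 * (T : ℝ) ≤ w)

include hT hw

lemma deg_pos (i : Fin (T + 1)) : 0 < deg T w i := by
  have hT' : (1 : ℝ) ≤ T := by exact_mod_cast hT
  unfold deg
  split_ifs <;> linarith

lemma tot_pos : 0 < tot T w := by
  have hT' : (1 : ℝ) ≤ T := by exact_mod_cast hT
  unfold tot
  nlinarith

lemma cond_pos (i j : Fin (T + 1)) : 0 < cond T w i j := by
  have hT' : (1 : ℝ) ≤ T := by exact_mod_cast hT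
  unfold cond
  split_ifs <;> linarith

lemma PP_pos (i j : Fin (T + 1)) : 0 < PP T w i j :=
  div_pos (cond_pos hT hw i j) (deg_pos hT hw i)

lemma PP_lazy (i : Fin (T + 1)) : 1 / 2 ≤ PP T w i i := by
  have hT' : (1 : ℝ) ≤ T := by exact_mod_cast hT
  unfold PP
  rw [div_le_div_iff₀ (by norm_num) (deg_pos hT hw i)]
  unfold cond deg
  simp only [if_true]
  split_ifs <;> linarith

lemma isChain : IsReversibleChain (PP T w) (st T w) := by
  have hrev : ∀ x y, st T w x * PP T w x y = st T w y * PP T w y x := by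
    intro x y
    unfold st PP
    rw [cond_symm T w y x]
    have h1 := (deg_pos hT hw x).ne'
    have h2 := (deg_pos hT hw y).ne'
    have h3 := (tot_pos hT hw).ne'
    field_simp
  have hrow : ∀ x, ∑ y, PP T w x y = 1 := by
    intro x
    unfold PP
    rw [← Finset.sum_div, sum_cond, div_self (deg_pos hT hw x).ne']
  refine
    { nonneg := fun x y => (PP_pos hT hw x y).le
      row_sum := hrow
      stat_nonneg := fun x => (div_pos (deg_pos hT hw x) (tot_pos hT hw)).le
      stat_sum := ?_
      stationary := ?_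
      reversible := hrev
      irreducible := fun x y => ⟨1, by simpa using PP_pos hT hw x y⟩
      aperiodic := ?_ }
  · unfold st
    rw [← Finset.sum_div, sum_deg, div_self (tot_pos hT hw).ne']
  · intro y
    rw [Finset.sum_congr rfl fun x _ => hrev x y, ← Finset.mul_sum, hrow, mul_one]
  · intro x d hd
    have := hd 1 (by simpa using PP_pos hT hw x x)
    exact Nat.dvd_one.mp this

/-- lower bound for the single chain: go straight through all vertices -/
lemma single_lower : (1 / (2 * (T : ℝ))) ^ (T - 1) / tot T w ≤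
    singleTail (PP T w) (st T w) T ((T : ℝ) + 1) := by
  have hT' : (1 : ℝ) ≤ T := by exact_mod_cast hT
  have hnn : ∀ x : Fin (T + 1) → Fin (T + 1), 0 ≤ trajProb (PP T w) (st T w) x :=
    fun x => trajProb_nonneg _ _ (fun a b => (PP_pos hT hw a b).le)
      (fun a => (div_pos (deg_pos hT hw a) (tot_pos hT hw)).le) x
  classical
  have key : (if ((T : ℝ) + 1) ≤ ((Set.range (id : Fin (T + 1) → Fin (T + 1))).ncard : ℝ)
      then trajProb (PP T w) (st T w) (id : Fin (T + 1) → Fin (T + 1)) else 0) ≤
      singleTail (PP T w) (st T w) T ((T : ℝ) + 1) := by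
    unfold singleTail
    refine le_trans (le_of_eq ?_) (Finset.single_le_sum (f := fun x : Fin (T + 1) → Fin (T + 1) =>
      if ((T : ℝ) + 1) ≤ ((Set.range x).ncard : ℝ) then trajProb (PP T w) (st T w) x else 0)
      ?_ (Finset.mem_univ id))
    · congr
    · intro x _
      split_ifs
      · exact hnn x
      · exact le_rfl
  refine le_trans (le_of_eq ?_) key
  rw [if_pos]
  · unfold trajProb
    obtain ⟨S, rfl⟩ : ∃ S, T = S + 1 := ⟨T - 1, by omega⟩
    rw [Fin.prod_univ_succ]
    have hst : st (S + 1) w (id 0) = w / tot (S + 1) w := by simp [st, deg]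
    have h0 : PP (S + 1) w (id (Fin.castSucc 0)) (id (Fin.succ 0)) = 1 / w := by
      simp [PP, cond, deg]
    have h1 : ∀ r : Fin S, PP (S + 1) w (id (Fin.castSucc (Fin.succ r))) (id (Fin.succ (Fin.succ r)))
        = 1 / (2 * ((S + 1 : ℕ) : ℝ)) := by
      intro r
      have hne : (Fin.castSucc (Fin.succ r)) ≠ Fin.succ (Fin.succ r) := by
        intro h
        have := congrArg Fin.val h
        simp at this
      have hne0 : (Fin.castSucc (Fin.succ r)) ≠ (0 : Fin (S + 1 + 1)) := by
        intro h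
        have := congrArg Fin.val h
        simp at this
      simp only [PP, cond, deg, id, if_neg hne, if_neg hne0]
    rw [hst, h0, Finset.prod_congr rfl fun r _ => h1 r]
    simp only [Finset.prod_const, Finset.card_univ, Fintype.card_fin, Nat.add_sub_cancel]
    have hw0 : w ≠ 0 := by
      have : 0 < w := by linarith
      exact this.ne'
    have h3 := (tot_pos hT hw).ne'
    field_simp
  · rw [Set.range_id, Set.ncard_univ]
    simp

/-- probability that the chain sits at `0` all the time -/
lemma sit_lower (s : ℕ) : (w - s * T) / tot T w ≤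
    trajProb (PP T w) (st T w) (fun _ : Fin (s + 1) => (0 : Fin (T + 1))) := by
  have hT' : (1 : ℝ) ≤ T := by exact_mod_cast hT
  have hw0 : 0 < w := by linarith
  unfold trajProb
  have h1 : PP T w 0 0 = 1 + (-(T : ℝ) / w) := by
    simp only [PP, cond, deg, if_true]
    field_simp
    ring
  have h2 : st T w 0 = w / tot T w := by simp [st, deg]
  simp only [Finset.prod_const, Finset.card_univ, Fintype.card_fin, h1, h2]
  have h3 : (-2 : ℝ) ≤ -(T : ℝ) / w := by
    rw [le_div_iff₀ hw0]
    linarith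
  have h4 := one_add_mul_le_pow h3 s
  have h5 : 0 ≤ w / tot T w := (div_pos hw0 (tot_pos hT hw)).le
  refine le_trans (le_of_eq ?_) (mul_le_mul_of_nonneg_left h4 h5)
  have h6 := (tot_pos hT hw).ne'
  field_simp
  ring

open Classical in
lemma mover_upper (s : ℕ) (hs : s ≤ T) :
    ∑ x : Fin (s + 1) → Fin (T + 1),
      (if x = (fun _ => 0) then 0 else trajProb (PP T w) (st T w) x) ≤ 3 * T ^ 2 / tot T w := by
  have hT' : (1 : ℝ) ≤ T := by exact_mod_cast hT
  have hs' : (s : ℝ) ≤ T := by exact_mod_cast hs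
  have htot := tot_pos hT hw
  have hC := isChain hT hw
  have h1 := sum_trajProb (PP T w) (st T w) hC.row_sum hC.stat_sum s
  have h2 : ∑ x : Fin (s + 1) → Fin (T + 1),
      (if x = (fun _ => 0) then 0 else trajProb (PP T w) (st T w) x)
      = 1 - trajProb (PP T w) (st T w) (fun _ : Fin (s + 1) => (0 : Fin (T + 1))) := by
    rw [← h1, ← Finset.add_sum_erase _ (fun x => trajProb (PP T w) (st T w) x)
      (Finset.mem_univ (fun _ : Fin (s + 1) => (0 : Fin (T + 1))))]
    rw [← Finset.add_sum_erase _ (fun x => if x = (fun _ => 0) then 0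
      else trajProb (PP T w) (st T w) x)
      (Finset.mem_univ (fun _ : Fin (s + 1) => (0 : Fin (T + 1))))]
    simp only [if_true, zero_add, add_sub_cancel_left]
    refine Finset.sum_congr rfl ?_
    intro x hx
    rw [if_neg (Finset.ne_of_mem_erase hx)]
  rw [h2]
  have h3 := sit_lower hT hw s
  have h4 : 1 - (w - s * T) / tot T w = (2 * T * T + s * T) / tot T w := by
    rw [eq_div_iff htot.ne', sub_mul, div_mul_cancel₀ _ htot.ne']
    unfold tot
    ring
  have h5 : (2 * T * T + s * T) / tot T w ≤ 3 * T ^ 2 / tot T w := by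
    apply div_le_div_of_nonneg_right _ htot.le
    nlinarith
  linarith

/-- upper bound for the union of the ranges of independent chains -/
lemma union_upper {k : ℕ} (t : Fin k → ℕ) (htT : ∑ j, t j = T)
    (ht2 : ∀ i, t i + 2 ≤ T) :
    unionTail (PP T w) (st T w) t ((T : ℝ) + 1) ≤ k ^ 2 * (3 * T ^ 2 / tot T w) ^ 2 := by
  classical
  have htot := tot_pos hT hw
  have hC := isChain hT hw
  have hnn : ∀ {s : ℕ} (x : Fin (s + 1) → Fin (T + 1)), 0 ≤ trajProb (PP T w) (st T w) x :=
    fun x => trajProb_nonneg _ _ hC.nonneg hC.stat_nonneg x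
  -- the weights
  let q : (i : Fin k) → (Fin (t i + 1) → Fin (T + 1)) → ℝ := fun i x =>
    if x = (fun _ => 0) then 0 else trajProb (PP T w) (st T w) x
  have hq0 : ∀ i x, 0 ≤ q i x := by
    intro i x
    simp only [q]
    split_ifs
    · exact le_rfl
    · exact hnn x
  let g : Fin k → Fin k → (i : Fin k) → (Fin (t i + 1) → Fin (T + 1)) → ℝ := fun a b i x =>
    if i = a ∨ i = b then q i x else trajProb (PP T w) (st T w) x
  have hg0 : ∀ a b i x, 0 ≤ g a b i x := by
    intro a b i x
    simp only [g]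
    split_ifs
    · exact hq0 i x
    · exact hnn x
  -- pointwise bound
  have hpt : ∀ x : (i : Fin k) → (Fin (t i + 1) → Fin (T + 1)),
      (if ((T : ℝ) + 1) ≤ ((⋃ i, Set.range (x i)).ncard : ℝ) then
        ∏ i, trajProb (PP T w) (st T w) (x i) else 0) ≤
      ∑ a : Fin k, ∑ b : Fin k, if a = b then 0 else ∏ i, g a b i (x i) := by
    intro x
    have hsum0 : ∀ a b : Fin k, 0 ≤ (if a = b then 0 else ∏ i, g a b i (x i)) := by
      intro a b
      split_ifs
      · exact le_rfl
      · exact Finset.prod_nonneg fun i _ => hg0 a b i (x i)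
    split_ifs with hcov
    · -- at least two movers
      have hmov : ∃ a b : Fin k, a ≠ b ∧ x a ≠ (fun _ => 0) ∧ x b ≠ (fun _ => 0) := by
        by_contra hcon
        push Not at hcon
        have hcov' : T + 1 ≤ (⋃ i, Set.range (x i)).ncard := by exact_mod_cast hcov
        by_cases hex : ∃ a, x a ≠ (fun _ => 0)
        · obtain ⟨a, ha⟩ := hex
          have hothers : ∀ b, b ≠ a → x b = (fun _ => 0) := by
            intro b hb
            exact hcon a b (Ne.symm hb) ha
          have hsub : (⋃ i, Set.range (x i)) ⊆ insert 0 (Set.range (x a)) := by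
            intro v hv
            obtain ⟨i, hi⟩ := Set.mem_iUnion.mp hv
            by_cases hia : i = a
            · subst hia
              exact Set.mem_insert_of_mem _ hi
            · rw [hothers i hia] at hi
              obtain ⟨r, hr⟩ := hi
              left
              exact hr.symm
          have h1 : (⋃ i, Set.range (x i)).ncard ≤ (insert 0 (Set.range (x a))).ncard :=
            Set.ncard_le_ncard hsub (Set.toFinite _)
          have h2 : (insert 0 (Set.range (x a))).ncard ≤ (Set.range (x a)).ncard + 1 :=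
            Set.ncard_insert_le _ _
          have h3 : (Set.range (x a)).ncard ≤ t a + 1 := by
            rw [← Set.image_univ]
            refine le_trans (Set.ncard_image_le (Set.toFinite _)) ?_
            rw [Set.ncard_univ]
            simp
          have h4 := ht2 a
          omega
        · push Not at hex
          have hsub : (⋃ i, Set.range (x i)) ⊆ {0} := by
            intro v hv
            obtain ⟨i, hi⟩ := Set.mem_iUnion.mp hv
            rw [hex i] at hi
            obtain ⟨r, hr⟩ := hi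
            exact hr.symm
          have h1 : (⋃ i, Set.range (x i)).ncard ≤ ({0} : Set (Fin (T + 1))).ncard :=
            Set.ncard_le_ncard hsub (Set.toFinite _)
          rw [Set.ncard_singleton] at h1
          omega
      obtain ⟨a, b, hab, ha, hb⟩ := hmov
      have h1 : ∏ i, trajProb (PP T w) (st T w) (x i) = ∏ i, g a b i (x i) := by
        refine Finset.prod_congr rfl ?_
        intro i _
        simp only [g, q]
        by_cases hi : i = a ∨ i = b
        · rw [if_pos hi]
          rcases hi with rfl | rfl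
          · rw [if_neg ha]
          · rw [if_neg hb]
        · rw [if_neg hi]
      rw [h1]
      calc ∏ i, g a b i (x i) = (if a = b then 0 else ∏ i, g a b i (x i)) := by rw [if_neg hab]
        _ ≤ ∑ b' : Fin k, (if a = b' then 0 else ∏ i, g a b' i (x i)) :=
            Finset.single_le_sum (f := fun b' => if a = b' then 0 else ∏ i, g a b' i (x i))
              (fun b' _ => hsum0 a b') (Finset.mem_univ b)
        _ ≤ _ :=
            Finset.single_le_sum
              (f := fun a' => ∑ b' : Fin k, (if a' = b' then 0 else ∏ i, g a' b' i (x i)))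
              (fun a' _ => Finset.sum_nonneg fun b' _ => hsum0 a' b') (Finset.mem_univ a)
    · exact Finset.sum_nonneg fun a _ => Finset.sum_nonneg fun b _ => hsum0 a b
  -- the sum of each product
  have hprod : ∀ a b : Fin k, a ≠ b →
      ∑ x : (i : Fin k) → (Fin (t i + 1) → Fin (T + 1)), ∏ i, g a b i (x i)
        ≤ (3 * T ^ 2 / tot T w) ^ 2 := by
    intro a b hab
    have hfac : ∑ x : (i : Fin k) → (Fin (t i + 1) → Fin (T + 1)), ∏ i, g a b i (x i)
        = ∏ i, ∑ y : Fin (t i + 1) → Fin (T + 1), g a b i y := by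
      rw [Finset.prod_univ_sum, Fintype.piFinset_univ]
    rw [hfac]
    have hone : ∀ i, i ≠ a → i ≠ b → ∑ y : Fin (t i + 1) → Fin (T + 1), g a b i y = 1 := by
      intro i hia hib
      have : ∀ y : Fin (t i + 1) → Fin (T + 1), g a b i y = trajProb (PP T w) (st T w) y := by
        intro y
        simp only [g, hia, hib, or_self, if_false]
      rw [Finset.sum_congr rfl fun y _ => this y]
      exact sum_trajProb _ _ hC.row_sum hC.stat_sum _
    have hq : ∀ i, (i = a ∨ i = b) →
        ∑ y : Fin (t i + 1) → Fin (T + 1), g a b i y ≤ 3 * T ^ 2 / tot T w := by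
      intro i hi
      have : ∀ y : Fin (t i + 1) → Fin (T + 1), g a b i y =
          if y = (fun _ => 0) then 0 else trajProb (PP T w) (st T w) y := by
        intro y
        simp only [g, if_pos hi, q]
      rw [Finset.sum_congr rfl fun y _ => this y]
      exact mover_upper hT hw (t i) (by have := ht2 i; omega)
    have hnonneg : ∀ i, 0 ≤ ∑ y : Fin (t i + 1) → Fin (T + 1), g a b i y :=
      fun i => Finset.sum_nonneg fun y _ => hg0 a b i y
    rw [← Finset.mul_prod_erase _ _ (Finset.mem_univ a),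
      ← Finset.mul_prod_erase _ _ (Finset.mem_erase.mpr ⟨Ne.symm hab, Finset.mem_univ b⟩)]
    have hrest : ∏ i ∈ (univ.erase a).erase b, ∑ y : Fin (t i + 1) → Fin (T + 1), g a b i y
        = 1 := by
      refine Finset.prod_eq_one ?_
      intro i hi
      rw [Finset.mem_erase, Finset.mem_erase] at hi
      exact hone i hi.2.1 hi.1
    rw [hrest, mul_one, sq]
    exact mul_le_mul (hq a (Or.inl rfl)) (hq b (Or.inr rfl)) (hnonneg b)
      (by positivity)
  unfold unionTail
  calc _ ≤ ∑ x : (i : Fin k) → (Fin (t i + 1) → Fin (T + 1)),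
        ∑ a : Fin k, ∑ b : Fin k, (if a = b then 0 else ∏ i, g a b i (x i)) := by
        refine Finset.sum_le_sum ?_
        intro x _
        refine le_trans (le_of_eq ?_) (hpt x)
        congr
    _ = ∑ a : Fin k, ∑ b : Fin k, ∑ x : (i : Fin k) → (Fin (t i + 1) → Fin (T + 1)),
        (if a = b then 0 else ∏ i, g a b i (x i)) := by
        rw [Finset.sum_comm]
        refine Finset.sum_congr rfl ?_
        intro a _
        rw [Finset.sum_comm]
    _ ≤ ∑ a : Fin k, ∑ b : Fin k, (3 * T ^ 2 / tot T w) ^ 2 := by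
        refine Finset.sum_le_sum ?_
        intro a _
        refine Finset.sum_le_sum ?_
        intro b _
        by_cases hab : a = b
        · simp only [hab, if_true, Finset.sum_const_zero]
          positivity
        · simp only [hab, if_false]
          exact hprod a b hab
    _ = k ^ 2 * (3 * T ^ 2 / tot T w) ^ 2 := by
        simp only [Finset.sum_const, Finset.card_univ, Fintype.card_fin, nsmul_eq_mul]
        ring

end chain

/-- For all `k ≥ 2` and positive integers `t_1, …, t_k` with sum `T` such that `t_i ≤ T - 2` for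
all `i` (that is: `k ≥ 3`, or `k = 2` and `t_1, t_2 ≥ 2`), stochastic dominance fails for some
reversible, irreducible, aperiodic chain, which can even be taken `1/2`-lazy and on `T + 1`
states. -/
theorem result (k : ℕ) (hk : 2 ≤ k) (t : Fin k → ℕ) (ht : ∀ i, 1 ≤ t i)
    (ht2 : ∀ i, t i + 2 ≤ ∑ j, t j) :
    ∃ (P : Matrix (Fin (∑ j, t j + 1)) (Fin (∑ j, t j + 1)) ℝ) (μ : Fin (∑ j, t j + 1) → ℝ),
      IsReversibleChain P μ ∧ (∀ x, 1 / 2 ≤ P x x) ∧
      ∃ y : ℝ, 0 < y ∧ unionTail P μ t y < singleTail P μ (∑ j, t j) y := by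
  obtain ⟨T, hTdef⟩ : ∃ T, T = ∑ j, t j := ⟨_, rfl⟩
  have hkT : k ≤ T := by
    rw [hTdef]
    calc k = ∑ _j : Fin k, 1 := by simp
      _ ≤ ∑ j, t j := Finset.sum_le_sum fun i _ => ht i
  rw [← hTdef]
  rw [← hTdef] at ht2
  have hT1 : 1 ≤ T := by omega
  have hT' : (1 : ℝ) ≤ T := by exact_mod_cast hT1
  have hkT' : (k : ℝ) ≤ T := by exact_mod_cast hkT
  let w : ℝ := 9 * (T : ℝ) ^ 6 * (2 * (T : ℝ)) ^ T
  have h2T : (1 : ℝ) ≤ 2 * T := by linarith
  have hpow : 2 * (T : ℝ) ≤ (2 * (T : ℝ)) ^ T := by
    calc 2 * (T : ℝ) = (2 * (T : ℝ)) ^ 1 := (pow_one _).symm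
      _ ≤ (2 * (T : ℝ)) ^ T := pow_le_pow_right₀ h2T hT1
  have hw : 2 * (T : ℝ) ≤ w := by
    have h6 : (1 : ℝ) ≤ (T : ℝ) ^ 6 := one_le_pow₀ hT'
    have : (2 * (T : ℝ)) ^ T ≤ w := by
      have h0 : 0 ≤ (2 * (T : ℝ)) ^ T := by positivity
      simp only [w]
      nlinarith
    linarith
  refine ⟨PP T w, st T w, isChain hT1 hw, PP_lazy hT1 hw, (T : ℝ) + 1, by positivity, ?_⟩
  have hup := union_upper hT1 hw t hTdef.symm ht2
  have hlow := single_lower hT1 hw
  refine lt_of_le_of_lt hup (lt_of_lt_of_le ?_ hlow)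
  have htot := tot_pos hT1 hw
  have htotw : w < tot T w := by
    unfold tot
    have : 0 < 2 * (T : ℝ) * T := by positivity
    linarith
  -- `k^2 * (3 T^2 / tot)^2 < (1/(2T))^(T-1) / tot`
  have hb : (0 : ℝ) < (2 * (T : ℝ)) ^ (T - 1) := by positivity
  rw [one_div, inv_pow, div_pow, ← mul_div_assoc, div_lt_div_iff₀ (by positivity) htot]
  have hineq : (k : ℝ) ^ 2 * (3 * (T : ℝ) ^ 2) ^ 2 * (2 * (T : ℝ)) ^ (T - 1) < tot T w := by
    refine lt_of_le_of_lt ?_ htotw
    have h1 : (k : ℝ) ^ 2 ≤ (T : ℝ) ^ 2 := by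
      have hk0 : (0 : ℝ) ≤ k := by positivity
      exact pow_le_pow_left₀ hk0 hkT' 2
    have h2 : (2 * (T : ℝ)) ^ (T - 1) ≤ (2 * (T : ℝ)) ^ T :=
      pow_le_pow_right₀ h2T (Nat.sub_le _ _)
    calc (k : ℝ) ^ 2 * (3 * (T : ℝ) ^ 2) ^ 2 * (2 * (T : ℝ)) ^ (T - 1)
        ≤ (T : ℝ) ^ 2 * (3 * (T : ℝ) ^ 2) ^ 2 * (2 * (T : ℝ)) ^ T := by gcongr
      _ = w := by simp only [w]; ring
  have h3 : (k : ℝ) ^ 2 * (3 * (T : ℝ) ^ 2) ^ 2 < ((2 * (T : ℝ)) ^ (T - 1))⁻¹ * tot T w := by
    rw [inv_mul_eq_div, lt_div_iff₀ hb]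
    exact hineq
  calc (k : ℝ) ^ 2 * (3 * (T : ℝ) ^ 2) ^ 2 * tot T w
      < ((2 * (T : ℝ)) ^ (T - 1))⁻¹ * tot T w * tot T w := by
        exact mul_lt_mul_of_pos_right h3 htot
    _ = ((2 * (T : ℝ)) ^ (T - 1))⁻¹ * tot T w ^ 2 := by ring

end Pool.Agent.Results.MP_55034c_pr.DominanceFails
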